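import Mathlib

/-! # Project BR (MP_2b6189_al): one prime, `m ≤ (p + 1)^2`.  Integer arithmetic -/

set_option autoImplicit false

namespace Pool.Agent.Helper94.BR

theorem kk_zero {N p k : ℤ} (hN : 0 < N) (hp : 2 * N < p) (hk : k ≠ 0) :
    |k| * (N * (p - N)) ≤ N * |p * k - N| := by
  have h1 : |k| * (p - N) ≤ |p * k - N| := by
    rcases lt_or_gt_of_ne hk with h | h
    · rw [abs_of_neg h]
      have : p * k - N < 0 := by nlinarith
      rw [abs_of_neg this]
      nlinarith
    · rw [abs_of_pos h]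
      have : N ≤ N * k := by nlinarith
      have : 0 < p * k - N := by nlinarith
      rw [abs_of_pos this]
      nlinarith
  nlinarith

theorem kk {N p k k' : ℤ} (hN : 0 < N) (hp : 2 * N < p) (hkk : k ≠ k') :
    |k - k'| * (N * (p - N)) ≤ |p * k - N| * |p * k' - N| := by
  have hp0 : 0 < p := by linarith
  by_cases h0 : k = 0
  · subst h0
    have h1 := kk_zero hN hp (fun h => hkk h.symm)
    have h2 : |p * 0 - N| = N := by rw [mul_zero, zero_sub, abs_neg, abs_of_pos hN]
    rw [h2, zero_sub, abs_neg]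
    exact h1
  by_cases h0' : k' = 0
  · subst h0'
    have h1 := kk_zero hN hp h0
    have h2 : |p * 0 - N| = N := by rw [mul_zero, zero_sub, abs_neg, abs_of_pos hN]
    rw [h2, sub_zero, mul_comm (|p * k - N|)]
    exact h1
  rcases lt_or_gt_of_ne h0 with h | h <;> rcases lt_or_gt_of_ne h0' with h' | h'
  · -- both negative
    have e1 : |p * k - N| = p * (-k) + N := by
      rw [abs_of_neg (by nlinarith)]; ring
    have e2 : |p * k' - N| = p * (-k') + N := by
      rw [abs_of_neg (by nlinarith)]; ring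
    rw [e1, e2]
    obtain ⟨u, hu⟩ : ∃ u, -k = u := ⟨_, rfl⟩
    obtain ⟨v, hv⟩ : ∃ v, -k' = v := ⟨_, rfl⟩
    have hu1 : 1 ≤ u := by omega
    have hv1 : 1 ≤ v := by omega
    have e3 : |k - k'| = |v - u| := by rw [← hu, ← hv]; congr 1; ring
    rw [e3, hu, hv]
    have h3 : |v - u| ≤ u * v := by
      rw [abs_le]
      constructor <;> nlinarith
    have h4 : N * (p - N) ≤ p * p := by nlinarith
    have h5 : (0:ℤ) ≤ u * v := by nlinarith
    calc |v - u| * (N * (p - N)) ≤ (u * v) * (N * (p - N)) :=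
          mul_le_mul_of_nonneg_right h3 (by nlinarith)
      _ ≤ (u * v) * (p * p) := mul_le_mul_of_nonneg_left h4 h5
      _ = (p * u) * (p * v) := by ring
      _ ≤ (p * u + N) * (p * v + N) := by
          have : 0 ≤ p * u := by nlinarith
          have : 0 ≤ p * v := by nlinarith
          nlinarith
  · -- k < 0 < k'
    have e1 : |p * k - N| = p * (-k) + N := by
      rw [abs_of_neg (by nlinarith)]; ring
    have e2 : |p * k' - N| = p * k' - N := by
      rw [abs_of_pos (by nlinarith)]
    obtain ⟨u, hu⟩ : ∃ u, -k = u := ⟨_, rfl⟩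
    have hu1 : 1 ≤ u := by omega
    have hk1 : 1 ≤ k' := by omega
    have e3 : |k - k'| = u + k' := by
      rw [abs_of_neg (by omega)]; omega
    rw [e1, e2, e3, hu]
    have h6 : k' * (p - N) ≤ p * k' - N := by nlinarith
    have h7 : (u + k') * N ≤ k' * (p * u + N) := by nlinarith [mul_nonneg (by omega : (0:ℤ) ≤ u - 1) (by omega : (0:ℤ) ≤ k' - 1), mul_pos (by omega : 0 < u) (by omega : 0 < k')]
    calc (u + k') * (N * (p - N)) = ((u + k') * N) * (p - N) := by ring
      _ ≤ (k' * (p * u + N)) * (p - N) := mul_le_mul_of_nonneg_right h7 (by linarith)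
      _ = (p * u + N) * (k' * (p - N)) := by ring
      _ ≤ (p * u + N) * (p * k' - N) := mul_le_mul_of_nonneg_left h6 (by nlinarith)
  · -- k' < 0 < k
    have e1 : |p * k' - N| = p * (-k') + N := by
      rw [abs_of_neg (by nlinarith)]; ring
    have e2 : |p * k - N| = p * k - N := by
      rw [abs_of_pos (by nlinarith)]
    obtain ⟨u, hu⟩ : ∃ u, -k' = u := ⟨_, rfl⟩
    have hu1 : 1 ≤ u := by omega
    have hk1 : 1 ≤ k := by omega
    have e3 : |k - k'| = u + k := by
      rw [abs_of_pos (by omega)]; omega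
    rw [e1, e2, e3, hu]
    have h6 : k * (p - N) ≤ p * k - N := by nlinarith
    have h7 : (u + k) * N ≤ k * (p * u + N) := by nlinarith [mul_nonneg (by omega : (0:ℤ) ≤ u - 1) (by omega : (0:ℤ) ≤ k - 1), mul_pos (by omega : 0 < u) (by omega : 0 < k)]
    calc (u + k) * (N * (p - N)) = ((u + k) * N) * (p - N) := by ring
      _ ≤ (k * (p * u + N)) * (p - N) := mul_le_mul_of_nonneg_right h7 (by linarith)
      _ = (k * (p - N)) * (p * u + N) := by ring
      _ ≤ (p * k - N) * (p * u + N) := mul_le_mul_of_nonneg_right h6 (by nlinarith)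
  · -- both positive
    have hk1 : 1 ≤ k := by omega
    have hk1' : 1 ≤ k' := by omega
    have e1 : |p * k - N| = p * k - N := by rw [abs_of_pos (by nlinarith)]
    have e2 : |p * k' - N| = p * k' - N := by rw [abs_of_pos (by nlinarith)]
    rw [e1, e2]
    have h6 : k * (p - N) ≤ p * k - N := by nlinarith
    have h6' : k' * (p - N) ≤ p * k' - N := by nlinarith
    have h3 : |k - k'| ≤ k * k' := by
      rw [abs_le]
      constructor <;> nlinarith
    have h8 : N * (p - N) ≤ (p - N) * (p - N) := by nlinarith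
    calc |k - k'| * (N * (p - N)) ≤ (k * k') * (N * (p - N)) :=
          mul_le_mul_of_nonneg_right h3 (by nlinarith)
      _ ≤ (k * k') * ((p - N) * (p - N)) := mul_le_mul_of_nonneg_left h8 (by nlinarith)
      _ = (k * (p - N)) * (k' * (p - N)) := by ring
      _ ≤ (p * k - N) * (p * k' - N) :=
          mul_le_mul h6 h6' (by nlinarith) (by nlinarith)

/-- Two singles which do not centralise are proportional, if `A ≤ (p+1)^2`. -/
theorem two_singles {p N A D d d' w w' f f' om om' k k' : ℤ} {G : ℤ} (hN : 0 < N)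
    (hp : 2 * N < p) (hd : d = p * f - w) (hd' : d' = p * f' - w') (hD : |D| = A)
    (ho : om * d = D * w) (ho' : om' * d' = D * w') (hk : om = p * k - N) (hk' : om' = p * k' - N)
    (hw : 4 * |w * w'| ≤ N - 1) (hG : G ∣ d) (hG' : G ∣ d') (hGp : IsCoprime G p)
    (h2 : p < 2 * G) (hA : A ≤ (p + 1) ^ 2) : w' * d = w * d' := by
  by_contra hne
  set J := w' * f - w * f' with hJ
  have hp0 : 0 < p := by linarith
  have e1 : p * J = w' * d - w * d' := by rw [hJ, hd, hd']; ring
  have hJ0 : J ≠ 0 := by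
    intro h
    rw [h, mul_zero] at e1
    exact hne (by linarith)
  have hGJ : G ∣ J := by
    have h1 : G ∣ p * J := by
      rw [e1]
      exact dvd_sub (Dvd.dvd.mul_left hG _) (Dvd.dvd.mul_left hG' _)
    exact hGp.dvd_of_dvd_mul_left h1
  have hGle : G ≤ |J| := Int.le_of_dvd (abs_pos.2 hJ0) ((dvd_abs G J).2 hGJ)
  have e2 : p * (J * (om * om')) = p * (D * (w * w') * (k' - k)) := by
    have : p * (J * (om * om')) = (w' * d - w * d') * (om * om') := by rw [← e1]; ring
    rw [this]
    calc (w' * d - w * d') * (om * om') = w' * (om * d) * om' - w * (om' * d') * om := by ring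
      _ = w' * (D * w) * om' - w * (D * w') * om := by rw [ho, ho']
      _ = D * (w * w') * (om' - om) := by ring
      _ = p * (D * (w * w') * (k' - k)) := by rw [hk, hk']; ring
  have e3 : J * (om * om') = D * (w * w') * (k' - k) := mul_left_cancel₀ hp0.ne' e2
  have om0 : ∀ j : ℤ, p * j - N ≠ 0 := by
    intro j hj
    rcases le_or_gt j 0 with h | h
    · nlinarith
    · have : (1:ℤ) ≤ j := h
      nlinarith
  have hkk : k ≠ k' := by
    intro h
    rw [h, sub_self, mul_zero] at e3
    rcases mul_eq_zero.1 e3 with h | h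
    · exact hJ0 h
    · rcases mul_eq_zero.1 h with h | h
      · exact om0 k (hk ▸ h)
      · exact om0 k' (hk' ▸ h)
  have e4 : |J| * (|om| * |om'|) = A * |w * w'| * |k - k'| := by
    rw [← abs_mul, ← abs_mul, e3, abs_mul, abs_mul, hD, abs_sub_comm k' k]
  have h3 := kk hN hp hkk
  rw [← hk, ← hk'] at h3
  have hkpos : 0 < |k - k'| := abs_pos.2 (sub_ne_zero.2 hkk)
  have h4 : |J| * (N * (p - N)) ≤ A * |w * w'| := by
    have h5 : |J| * (N * (p - N)) * |k - k'| ≤ A * |w * w'| * |k - k'| := by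
      rw [← e4]
      calc |J| * (N * (p - N)) * |k - k'| = |J| * (|k - k'| * (N * (p - N))) := by ring
        _ ≤ |J| * (|om| * |om'|) := mul_le_mul_of_nonneg_left h3 (abs_nonneg J)
    exact le_of_mul_le_mul_right h5 hkpos
  have hA0 : 0 ≤ A := by rw [← hD]; exact abs_nonneg D
  have hw0 : 0 ≤ |w * w'| := abs_nonneg _
  have h6 : 4 * (|J| * (N * (p - N))) ≤ (p + 1) ^ 2 * (N - 1) := by
    have h7 : A * (4 * |w * w'|) ≤ (p + 1) ^ 2 * (N - 1) :=
      mul_le_mul hA hw (by positivity) (by positivity)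
    nlinarith
  have h8 : p + 1 ≤ 2 * |J| := by omega
  have h9 : 0 ≤ N * (p - N) := by nlinarith
  have h10 : 2 * (p + 1) * (N * (p - N)) ≤ (p + 1) ^ 2 * (N - 1) := by nlinarith
  have h11 : p + 1 ≤ 2 * (p - N) := by omega
  have h12 : (p + 1) * ((p + 1) * N) ≤ 2 * (p + 1) * (N * (p - N)) := by
    have : (p + 1) * N ≤ 2 * (p - N) * N := mul_le_mul_of_nonneg_right h11 hN.le
    nlinarith
  nlinarith

/-- The last step. -/
theorem last_step {ι : Type} (s : Finset ι) (w d : ι → ℤ) (y0 d0 w1 d1 G : ℤ)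
    (hsum : y0 * d0 + ∑ v ∈ s, w v * d v = 1) (hprop : ∀ v ∈ s, w1 * d v = w v * d1)
    (hG0 : G ∣ d0) (hG1 : G ∣ d1) : G ∣ w1 := by
  have h1 : w1 = (y0 * w1) * d0 + (∑ v ∈ s, w v * w v) * d1 := by
    calc w1 = w1 * (y0 * d0 + ∑ v ∈ s, w v * d v) := by rw [hsum, mul_one]
      _ = (y0 * w1) * d0 + ∑ v ∈ s, w v * (w1 * d v) := by
          rw [mul_add, Finset.mul_sum]
          congr 1
          · ring
          · exact Finset.sum_congr rfl fun v _ => by ring
      _ = (y0 * w1) * d0 + ∑ v ∈ s, w v * w v * d1 := by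
          congr 1
          exact Finset.sum_congr rfl fun v hv => by rw [hprop v hv]; ring
      _ = _ := by rw [← Finset.sum_mul]
  rw [h1]
  exact dvd_add (Dvd.dvd.mul_left hG0 _) (Dvd.dvd.mul_left hG1 _)

end Pool.Agent.Helper94.BR
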