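import Pool.Agent.Helper79.AL.All
import Pool.Agent.Helper94.BR.Num

/-! # Project BR (MP_2b6189_al): `n = p m` odd, `p ∤ m`, `m ≤ (p + 1)^2`: a nontrivial Tannakian subcategory

Analogue of the theorem of Brauer and Reynolds on groups of order divisible exactly once by `p`, `n < p ^ 3`. -/

set_option autoImplicit false

namespace Pool.Agent.Helper94.BR

open Matrix ComplexConjugate Pool.Agent.Helper94.YG
open Pool.Agent.Helper94.YF hiding StORB
open Pool.Agent.Helper89.OS Pool.Agent.Helper89.OC Pool.Agent.Helper79.AL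

variable {I : Type} [Fintype I] [DecidableEq I]

/-- Two elements of the principal block do not centralise if one of them is fixed by the torus. -/
theorem noncen (Z : CentreData I) (hodd : Odd Z.n) (hT : ¬ ∃ D : I → Prop, TanSet Z D) {p : ℕ}
    [NeZero p] {b : ZMod Z.L} {X : PD I p 1} {Q : ℂ → Prop} {N : ℕ} {a w : I} {e : ℤ} {A : ℕ}
    (h : Gh Z b X Q N a w e A) (v l : I) (hv : v ∈ Ks X) (hv1 : ∀ c, X.pi c v = v) (hl : l ∈ Ks X)
    (hcen : Sf Z v l = (Z.d v : ℂ) * Z.d l) : False := by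
  classical
  have hA := Helper36.OC.hGLA I Z
  have hCEF := Helper18.AL.hCEF Helper36.OC.hGLA Helper1.OC.hGLB Helper38.OC.hGLC
  have hSPL := Helper71.AL.hSPL Helper18.AL.hCEF Helper2.AL.hDIM Helper36.OC.hGLA Helper1.OC.hGLB
    Helper38.OC.hGLC
  have hZED := Helper88.AL.hZED Helper79.AL.hYPR' Helper95.OC.hTS2 Helper78.OC.hORB
    Helper36.OC.hGLA Helper32.OC.hLKN
  have hCST := Helper95.AL.hCST Helper45.AL.hFCA
  let E : I → Prop := fun i => i = v
  have hint : ∀ x, Ce Z E x → Ce Z (Ce Z E) x → x = Z.o :=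
    (hCEF I Z (Ce Z E)).2 hodd hT (hCEF I Z E).1
  obtain ⟨m, hm⟩ := hSPL I Z (Ce Z E) (hCEF I Z E).1 hint
  have hE : ∀ c i, E i → E (X.pi c i) := by
    rintro c i hi
    have hi' : i = v := hi
    show X.pi c i = v
    rw [hi']
    exact hv1 c
  have hE1 := hCST I Z p b X E h.lq hE
  have hE2 := hCST I Z p b X (Ce Z E) h.lq hE1
  have hD := hZED I Z p b X Q N a w e A (Ce Z E) (Ce Z (Ce Z E)) m h hm hE1 hE2
  obtain ⟨hvy, -, hvo⟩ := Helper79.AL.mem_Ks.1 hv
  obtain ⟨hly, -, hlo⟩ := Helper79.AL.mem_Ks.1 hl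
  rw [h.lq.lk.o] at hvo hlo
  have hv2 : Ce Z (Ce Z E) v := fun i hi => by
    have h1 : Sf Z v i = (Z.d v : ℂ) * Z.d i := hi v rfl
    rw [hA.Sf_symm, h1, mul_comm]
  have hl1 : Ce Z E l := fun i hi => by
    have hi' : i = v := hi
    rw [hi']
    exact hcen
  rcases hD with h1 | h1
  · exact hvo (hint v (h1 v hvy) hv2)
  · exact hlo (hint l hl1 (h1 l hly))

/-- The greatest common divisor of the dimensions is large. -/
theorem gcd_big (Z : CentreData I) (hodd : Odd Z.n) (hT : ¬ ∃ D : I → Prop, TanSet Z D) {p : ℕ}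
    [NeZero p] {b : ZMod Z.L} {X : PD I p 1} {Q : ℂ → Prop} {N : ℕ} {a w : I} {e : ℤ} {A : ℕ}
    (h : Gh Z b X Q N a w e A) (v l : I) (hv : v ∈ Ks X) (hv1 : ∀ c, X.pi c v = v)
    (hl : l ∈ Ks X) : p < 2 * Nat.gcd (Z.d v) (Z.d l) := by
  by_contra hlt
  have hA := Helper36.OC.hGLA I Z
  have hCG := Helper98.AL.hCG Helper95.OC.hTS2 Helper78.OC.hORB Helper36.OC.hGLA
    Helper32.OC.hLKN Helper45.AL.hFCA I Z p b X Q h.lq h.gam.blk v hv l (Or.inl hv1)
  obtain ⟨hvy, -, -⟩ := Helper79.AL.mem_Ks.1 hv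
  obtain ⟨hly, -, -⟩ := Helper79.AL.mem_Ks.1 hl
  have h1 := h.gam.blk.d_nd v hvy
  have h2 := h.gam.blk.d_nd l hly
  rw [h.lq.lk.d] at h1 h2
  have hodd' := X.p_odd
  refine noncen Z hodd hT h v l hv hv1 hl
    (Helper52.SQ.pr2 Helper2.OC.hKRO Z hA v l {p} ?_ ?_ ?_ ?_)
  · intro t ht
    rw [Finset.mem_singleton.1 ht]
    exact X.prime
  · intro t ht
    rw [Finset.mem_singleton.1 ht]
    exact ⟨h1, h2⟩
  · intro t ht
    rw [Finset.mem_singleton.1 ht]
    exact hCG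
  · rw [Finset.prod_singleton]
    obtain ⟨r, hr⟩ := hodd'
    omega

theorem rat_dvd {d : ℕ} (hd : 0 < d) {x : ℤ} {β : ℂ} (hβ : IsIntegral ℤ β)
    (h : (d : ℂ) * β = (x : ℂ)) : ∃ y : ℤ, (d : ℤ) * y = x := by
  have hd0 : (d : ℂ) ≠ 0 := by exact_mod_cast hd.ne'
  have h1 : β = (((x : ℚ) / d : ℚ) : ℂ) := by
    push_cast
    rw [eq_div_iff hd0, mul_comm]
    exact h
  rw [h1] at hβ
  obtain ⟨y, hy⟩ := hRAT'.2 _ hβ
  refine ⟨y, ?_⟩
  have hd1 : (d : ℚ) ≠ 0 := by exact_mod_cast hd.ne'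
  have h2 : (d : ℚ) * y = x := by rw [hy]; field_simp
  exact_mod_cast h2

/-- **Theorem.**  The dimension `A` of a ghost is larger than `(p + 1)^2`. -/
theorem ghost_big (Z : CentreData I) (hodd : Odd Z.n) (hT : ¬ ∃ D : I → Prop, TanSet Z D) {p : ℕ}
    [NeZero p] {b : ZMod Z.L} {X : PD I p 1} {Q : ℂ → Prop} {N : ℕ} {a w : I} {e : ℤ} {A : ℕ}
    (h : Gh Z b X Q N a w e A) : (p + 1) ^ 2 < A := by
  classical
  by_contra hA'
  have hAle : (A : ℤ) ≤ ((p : ℤ) + 1) ^ 2 := by exact_mod_cast not_lt.1 hA'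
  have hGLA := Helper36.OC.hGLA I Z
  have hM := Helper39.OS.hMZZ I p X
  have hO := Helper78.OC.hORB I p X
  have hB := h.gam.blk
  obtain ⟨hD1, hD2, hD3, hD4⟩ := Helper79.OS.hDRE Helper47.OS.hSTL Helper8.OS.hHEC
    Helper39.OS.hMZZ I p X Q hB
  have hTSU := Helper45.OS.hTSU Helper47.OS.hSTL Helper8.OS.hHEC Helper39.OS.hMZZ hRAT' I p X Q hB
  have hXd : X.d = Z.d := h.lq.lk.d
  have hg2 : (2 : ℤ) ≤ gX X := hM.2.2.2.2.1
  have hgdef : (p : ℤ) - X.y X.o = gX X := rfl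
  rw [hgdef] at hD1 hD2
  have hpN := h.gam.pN
  have hN3 : (3 : ℤ) ≤ N := by exact_mod_cast h.gam.N_ge
  have h2N : 2 * (N : ℤ) < p := by nlinarith
  have hp7 : 7 ≤ p := h.p7
  have hpp : Prime (p : ℤ) := Nat.prime_iff_prime_int.1 X.prime
  have hg0 : gX X ≠ 0 := by omega
  have hgp : ¬ (p : ℤ) ∣ gX X := by
    intro h1
    have := Int.le_of_dvd (by omega) h1
    nlinarith
  -- the constant D
  obtain ⟨b0, hb1, hb2⟩ := hM.2.2.1
  obtain ⟨hbe, hbA⟩ := h.yd b0 hb1 hb2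
  set D : ℤ := e * A with hDdef
  have he2 := h.e2
  have hgD : gX X * D = p * X.z X.o - 1 := by
    have h1 := hD2 b0 hb1 hb2
    rw [hbe, hbA] at h1
    calc gX X * D = e * (gX X * A) := by rw [hDdef]; ring
      _ = e * ((p * X.z X.o - 1) * e) := by rw [h1]
      _ = e ^ 2 * (p * X.z X.o - 1) := by ring
      _ = p * X.z X.o - 1 := by rw [he2, one_mul]
  have hDabs : |D| = A := by
    have h1 : |e| = 1 := by
      have : |e| ^ 2 = 1 := by rw [sq_abs]; exact he2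
      nlinarith [abs_nonneg e]
    rw [hDdef, abs_mul, h1, one_mul, abs_of_nonneg (by positivity)]
  -- the orbit of `w`
  have hWK := h.orbKs Helper78.OC.hORB
  have hwKs : w ∈ Ks X := h.wKs
  have hw' : w ∉ Orb X a := by
    have := h.wK
    simp only [Kp, Finset.mem_filter] at this
    exact this.2
  have hOw : ∀ i ∈ Orb X w, i ∈ Kp X a := by
    intro i hi
    simp only [Kp, Finset.mem_filter]
    refine ⟨(hWK i hi).1, fun h1 => hw' ?_⟩
    have h2 := hO.eq w i hi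
    have h3 := hO.eq a i h1
    rw [← h3, h2]
    exact hO.self w
  set NE : Finset I := (Kp X a).filter fun k => k ∉ Orb X w with hNE
  have hNEm : ∀ v ∈ NE, v ∈ Ks X ∧ v ∉ Orb X a ∧ v ∉ Orb X w := by
    intro v hv
    simp only [hNE, Kp, Finset.mem_filter] at hv
    exact ⟨hv.1.1, hv.1.2, hv.2⟩
  have hNEc : ∀ v ∈ NE, (Orb X v).card = 1 := by
    intro v hv
    simp only [hNE, Finset.mem_filter] at hv
    exact h.sng v hv.1 hv.2
  have hNEpi : ∀ v ∈ NE, ∀ c, X.pi c v = v := by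
    intro v hv c
    obtain ⟨x, hx⟩ := Finset.card_eq_one.1 (hNEc v hv)
    have h1 : X.pi c v ∈ Orb X v := by simp [Orb]
    have h2 := hO.self v
    rw [hx, Finset.mem_singleton] at h1 h2
    rw [h1, h2]
  have hNEo : ∀ v ∈ NE, Orb X v = {v} := by
    intro v hv
    obtain ⟨x, hx⟩ := Finset.card_eq_one.1 (hNEc v hv)
    have h2 := hO.self v
    rw [hx, Finset.mem_singleton] at h2
    rw [hx, h2]
  -- the weights
  set W : I → ℤ := fun v => X.y v / gX X with hWdef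
  have hW : ∀ v ∈ NE, X.y v = gX X * W v := by
    intro v hv
    obtain ⟨h1, h2, h3⟩ := Helper79.AL.mem_Ks.1 (hNEm v hv).1
    have h4 := (hTSU v h1 h2 h3).2
    rw [hNEc v hv, Nat.cast_one, one_mul, hgdef] at h4
    rw [hWdef]
    exact (Int.mul_ediv_cancel' h4).symm
  have hW0 : ∀ v ∈ NE, W v ≠ 0 := by
    intro v hv h1
    have h2 := hW v hv
    rw [h1, mul_zero] at h2
    exact (Helper79.AL.mem_Ks.1 (hNEm v hv).1).1 h2
  -- sums over `Kp`
  have hsplit : ∀ f : I → ℤ, (∀ i ∈ Orb X w, f i = f w) →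
      ∑ k ∈ Kp X a, f k = gX X * f w + ∑ k ∈ NE, f k := by
    intro f hf
    rw [← Finset.sum_filter_add_sum_filter_not (Kp X a) (fun k => k ∈ Orb X w)]
    congr 1
    have h1 : (Kp X a).filter (fun k => k ∈ Orb X w) = Orb X w := by
      ext i
      simp only [Finset.mem_filter]
      exact ⟨fun h => h.2, fun h => ⟨hOw i h, h⟩⟩
    rw [h1, Finset.sum_congr rfl hf, Finset.sum_const, nsmul_eq_mul, h.wO]
  have hsq : X.y w ^ 2 + gX X * ∑ v ∈ NE, W v ^ 2 = p - gX X := by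
    have h1 := h.gam.sq
    rw [hsplit (fun k => X.y k ^ 2) (fun i hi => by simp only [hO.y w i hi])] at h1
    have h2 : ∑ k ∈ NE, X.y k ^ 2 = gX X * (gX X * ∑ v ∈ NE, W v ^ 2) := by
      rw [Finset.mul_sum, Finset.mul_sum]
      refine Finset.sum_congr rfl fun v hv => ?_
      rw [hW v hv]
      ring
    rw [h2] at h1
    have h3 : gX X * (X.y w ^ 2 + gX X * ∑ v ∈ NE, W v ^ 2) = gX X * (p - gX X) := by
      rw [mul_add]
      exact h1
    exact mul_left_cancel₀ hg0 h3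
  have hdm : X.y w * (Z.d w : ℤ) + ∑ v ∈ NE, W v * (Z.d v : ℤ) = 1 := by
    have h1 := h.gam.dm
    rw [hXd] at h1
    rw [hsplit (fun k => X.y k * (Z.d k : ℤ)) (fun i hi => by
      simp only [hO.y w i hi, (hWK i hi).2.2])] at h1
    have h2 : ∑ k ∈ NE, X.y k * (Z.d k : ℤ) = gX X * ∑ v ∈ NE, W v * (Z.d v : ℤ) := by
      rw [Finset.mul_sum]
      refine Finset.sum_congr rfl fun v hv => ?_
      rw [hW v hv]
      ring
    rw [h2] at h1
    have h3 : gX X * (X.y w * (Z.d w : ℤ) + ∑ v ∈ NE, W v * (Z.d v : ℤ)) = gX X * 1 := by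
      rw [mul_add, mul_one]
      exact h1
    exact mul_left_cancel₀ hg0 h3
  have hyw0 : X.y w ≠ 0 := (Helper79.AL.mem_Ks.1 hwKs).1
  have hsumW : ∑ v ∈ NE, W v ^ 2 ≤ N - 1 := by
    have h1 : 1 ≤ X.y w ^ 2 := by
      have := sq_nonneg (X.y w)
      have h2 : X.y w ^ 2 ≠ 0 := pow_ne_zero 2 hyw0
      omega
    have h3 : gX X * ∑ v ∈ NE, W v ^ 2 ≤ gX X * (N - 1) := by nlinarith
    exact le_of_mul_le_mul_left h3 (by omega)
  -- `y w` is prime to `g`
  have hgyw : ¬ gX X ∣ X.y w := by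
    rintro ⟨r, hr⟩
    have h1 : gX X ∣ 1 := by
      refine ⟨gX X * r ^ 2 + ∑ v ∈ NE, W v ^ 2 + 1 - N, ?_⟩
      rw [hr] at hsq
      linear_combination (-1 : ℤ) * hsq - hpN
    have := Int.le_of_dvd (by norm_num) h1
    omega
  -- no invertible object
  have hdw : Z.d w ≠ 1 := by
    intro h1
    apply hT
    refine Helper70.AL.hG2T Helper36.OC.hGLA Helper1.OC.hGLB Helper38.OC.hGLC I Z hodd
      ⟨w, ?_, h1, ?_⟩
    · have := (Helper79.AL.mem_Ks.1 hwKs).2.2
      rwa [h.lq.lk.o] at this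
    · obtain ⟨h2, h3, -⟩ := Helper79.AL.mem_Ks.1 hwKs
      have := X.th_of w h2 h3
      rwa [h.lq.lk.th] at this
  have hne : NE.Nonempty := by
    rw [Finset.nonempty_iff_ne_empty]
    intro h1
    rw [h1, Finset.sum_empty, add_zero] at hdm
    apply hdw
    have h2 : (Z.d w : ℤ) ∣ 1 := ⟨X.y w, by rw [mul_comm]; exact hdm.symm⟩
    have h3 := Int.le_of_dvd one_pos h2
    have h4 := Z.d_pos w
    omega
  -- duality
  have hst : ∀ v ∈ NE, X.st v ∈ NE ∧ X.st v ≠ v ∧ W (X.st v) = W v ∧ Z.d (X.st v) = Z.d v := by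
    intro v hv
    obtain ⟨h1, h2, h3⟩ := Helper79.AL.mem_Ks.1 (hNEm v hv).1
    have hy : X.y (X.st v) = X.y v := X.y_st v
    have hyv := hW v hv
    have hW1 : (1 : ℤ) ≤ W v ^ 2 := by
      have := sq_nonneg (W v)
      have h2 : W v ^ 2 ≠ 0 := pow_ne_zero 2 (hW0 v hv)
      omega
    refine ⟨?_, fun h4 => h3 (X.nsd v h4), by rw [hWdef]; simp only [hy], ?_⟩
    · simp only [hNE, Kp, Finset.mem_filter]
      refine ⟨⟨Helper79.AL.mem_Ks.2 ⟨by rw [hy]; exact h1, by rw [X.t_st]; exact h2, ?_⟩, ?_⟩, ?_⟩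
      · intro h4
        apply h3
        rw [← X.st_st v, h4, X.st_o]
      · intro h4
        have h5 := hO.y a _ h4
        have h6 := h.gam.ay
        rw [← h5, hy, hyv, mul_pow] at h6
        have h8 : 4 ≤ gX X ^ 2 := by nlinarith
        have h9 : gX X ^ 2 * 1 ≤ gX X ^ 2 * W v ^ 2 :=
          mul_le_mul_of_nonneg_left hW1 (sq_nonneg _)
        linarith
      · intro h4
        have h5 := hO.y w _ h4
        apply hgyw
        rw [← h5, hy, hyv]
        exact dvd_mul_right _ _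
    · have := X.d_st v
      rwa [hXd] at this
  -- the numbers `f`, `ω`, `k`
  have hF : ∀ v ∈ NE, (Z.d v : ℤ) = p * (X.z X.o * W v + X.z v) - W v := by
    intro v hv
    obtain ⟨h1, h2, h3⟩ := Helper79.AL.mem_Ks.1 (hNEm v hv).1
    have h4 := hD1 v h1 h2 h3
    rw [hXd, hW v hv] at h4
    apply mul_left_cancel₀ hg0
    rw [h4]
    ring
  have hpd : ∀ v ∈ NE, ¬ (p : ℤ) ∣ Z.d v := by
    intro v hv h1
    have h2 := hB.d_nd v (Helper79.AL.mem_Ks.1 (hNEm v hv).1).1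
    rw [hXd] at h2
    exact h2 (Int.natCast_dvd_natCast.1 h1)
  have hpW : ∀ v ∈ NE, ¬ (p : ℤ) ∣ W v := by
    intro v hv h1
    apply hpd v hv
    rw [hF v hv]
    exact dvd_sub (dvd_mul_right _ _) h1
  have hom : ∀ v ∈ NE, ∃ om k : ℤ, om * (Z.d v : ℤ) = D * W v ∧ om = p * k - N := by
    intro v hv
    obtain ⟨h1, h2, h3⟩ := Helper79.AL.mem_Ks.1 (hNEm v hv).1
    have h4 := ((Helper95.OC.hTS2 Helper78.OC.hORB I p X Q hB v (hNEm v hv).1).2) b0 hb2
    rw [hNEo v hv, Finset.sum_singleton, Finset.card_singleton, hW v hv, h.lq.lk.chi] at h4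
    have hgC : ((gX X : ℤ) : ℂ) ≠ 0 := by exact_mod_cast hg0
    have h5 : Cchi Z b0 v = -((W v : ℤ) : ℂ) := by
      apply mul_left_cancel₀ hgC
      rw [h4]
      push_cast
      ring
    have h6 : (Z.d v : ℂ) * Cchi Z v b0 = ((-(A * W v) : ℤ) : ℂ) := by
      rw [← hGLA.Sf_chi, hGLA.Sf_symm, hGLA.Sf_chi, h5]
      have h7 : Z.d b0 = A := by rw [← hXd]; exact hbA
      rw [h7]
      push_cast
      ring
    obtain ⟨y, hy⟩ := rat_dvd (Z.d_pos v) (hGLA.chi_int v b0) h6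
    have hoy : (-(e * y)) * (Z.d v : ℤ) = D * W v := by
      calc (-(e * y)) * (Z.d v : ℤ) = -(e * ((Z.d v : ℤ) * y)) := by ring
        _ = D * W v := by rw [hy, hDdef]; ring
    -- congruence
    have h8 : (p : ℤ) ∣ W v * (gX X * (-(e * y)) - 1) := by
      refine ⟨gX X * (-(e * y)) * (X.z X.o * W v + X.z v) - X.z X.o * W v, ?_⟩
      have h9 : gX X * ((-(e * y)) * (Z.d v : ℤ)) = (p * X.z X.o - 1) * W v := by
        rw [hoy, ← hgD]; ring
      rw [hF v hv] at h9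
      linear_combination (-1 : ℤ) * h9
    have h10 : (p : ℤ) ∣ gX X * (-(e * y) + N) := by
      have h11 := (hpp.dvd_or_dvd h8).resolve_left (hpW v hv)
      have h12 : gX X * (-(e * y) + N) = (gX X * (-(e * y)) - 1) + p := by
        linear_combination (-1 : ℤ) * hpN
      rw [h12]
      exact dvd_add h11 (dvd_refl _)
    obtain ⟨k, hk⟩ := (hpp.dvd_or_dvd h10).resolve_left hgp
    exact ⟨-(e * y), k, hoy, by linarith⟩
  -- all singles are proportional
  have hprop : ∀ v ∈ NE, ∀ v' ∈ NE, W v' * (Z.d v : ℤ) = W v * (Z.d v' : ℤ) := by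
    intro v hv v' hv'
    by_cases h1 : v' = v
    · rw [h1]
    by_cases h2 : v' = X.st v
    · rw [h2, (hst v hv).2.2.1, (hst v hv).2.2.2]
    have hs1 := hst v hv
    have hs2 := hst v' hv'
    have h3 : X.st v' ≠ v := fun h4 => h2 (by rw [← h4, X.st_st])
    have h4 : X.st v' ≠ X.st v := fun h5 => h1 (by rw [← X.st_st v', h5, X.st_st])
    have h5 : 4 * |W v * W v'| ≤ N - 1 := by
      have h6 : ∑ i ∈ ({v, X.st v, v', X.st v'} : Finset I), W i ^ 2 ≤ ∑ i ∈ NE, W i ^ 2 := by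
        apply Finset.sum_le_sum_of_subset_of_nonneg
        · intro i hi
          simp only [Finset.mem_insert, Finset.mem_singleton] at hi
          rcases hi with rfl | rfl | rfl | rfl
          · exact hv
          · exact hs1.1
          · exact hv'
          · exact hs2.1
        · intro i _ _
          exact sq_nonneg _
      rw [Finset.sum_insert, Finset.sum_insert, Finset.sum_insert, Finset.sum_singleton, hs1.2.2.1,
        hs2.2.2.1] at h6
      · have h7 : 2 * |W v * W v'| ≤ W v ^ 2 + W v' ^ 2 := by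
          rw [abs_mul]
          have := two_mul_le_add_sq |W v| |W v'|
          rw [sq_abs, sq_abs] at this
          linarith
        linarith
      · simpa using fun h => hs2.2.1 h.symm
      · simp only [Finset.mem_insert, Finset.mem_singleton, not_or]
        exact ⟨fun h => h2 h.symm, fun h => h4 h.symm⟩
      · simp only [Finset.mem_insert, Finset.mem_singleton, not_or]
        exact ⟨fun h => hs1.2.1 h.symm, fun h => h1 h.symm, fun h => h3 h.symm⟩
    obtain ⟨om, k, ho, hk⟩ := hom v hv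
    obtain ⟨om', k', ho', hk'⟩ := hom v' hv'
    have hbig := gcd_big Z hodd hT h v v' (hNEm v hv).1 (hNEpi v hv) (hNEm v' hv').1
    refine two_singles (G := (Nat.gcd (Z.d v) (Z.d v') : ℕ)) (by omega) h2N (hF v hv) (hF v' hv')
      hDabs ho ho' hk hk' h5 (Int.natCast_dvd_natCast.2 (Nat.gcd_dvd_left _ _))
      (Int.natCast_dvd_natCast.2 (Nat.gcd_dvd_right _ _)) ?_ (by exact_mod_cast hbig) hAle
    rw [Int.isCoprime_iff_gcd_eq_one, Int.gcd_comm]
    rw [← Int.isCoprime_iff_gcd_eq_one]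
    refine (Prime.coprime_iff_not_dvd hpp).2 fun h6 => hpd v hv ?_
    exact h6.trans (Int.natCast_dvd_natCast.2 (Nat.gcd_dvd_left _ _))
  obtain ⟨v0, hv0⟩ := hne
  have hlast := last_step NE W (fun v => (Z.d v : ℤ)) (X.y w) (Z.d w) (W v0) (Z.d v0)
    (Nat.gcd (Z.d v0) (Z.d w) : ℕ) hdm (fun v hv => hprop v hv v0 hv0)
    (Int.natCast_dvd_natCast.2 (Nat.gcd_dvd_right _ _))
    (Int.natCast_dvd_natCast.2 (Nat.gcd_dvd_left _ _))
  have hbig := gcd_big Z hodd hT h v0 w (hNEm v0 hv0).1 (hNEpi v0 hv0) hwKs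
  have h1 : ((Nat.gcd (Z.d v0) (Z.d w) : ℕ) : ℤ) ≤ |W v0| :=
    Int.le_of_dvd (abs_pos.2 (hW0 v0 hv0)) ((dvd_abs _ _).2 hlast)
  have h2 : W v0 ^ 2 ≤ N - 1 :=
    (Finset.single_le_sum (f := fun v => W v ^ 2) (fun i _ => sq_nonneg _) hv0).trans hsumW
  have h3 : |W v0| ≤ W v0 ^ 2 := by
    rw [← sq_abs]
    have : 1 ≤ |W v0| := Int.one_le_abs (hW0 v0 hv0)
    nlinarith
  have h4 : (p : ℤ) < 2 * ((Nat.gcd (Z.d v0) (Z.d w) : ℕ) : ℤ) := by exact_mod_cast hbig
  omega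

/-- **Theorem.**  `n = p m` odd, `p` a prime which does not divide `m`, `m ≤ (p + 1)^2`. -/
theorem brauer_reynolds (Z : CentreData I) (hodd : Odd Z.n) (p m : ℕ) (hp : p.Prime)
    (hn : Z.n = p * m) (hpm : ¬ p ∣ m) (hm : m ≤ (p + 1) ^ 2) : ∃ D : I → Prop, TanSet Z D := by
  by_contra hT
  have : NeZero p := ⟨hp.ne_zero⟩
  obtain ⟨b, X, Q, N, a, w, e, A, h⟩ := allGHO I Z p m hodd hp hn hpm hT
  have h1 := ghost_big Z hodd hT h
  have h2 : A ∣ m := by
    have h3 := h.A_dvd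
    rw [hn] at h3
    exact (Nat.Coprime.symm ((Nat.Prime.coprime_iff_not_dvd hp).2 h.A_nd)).dvd_of_dvd_mul_left h3
  have h3 : 0 < m := by
    rcases Nat.eq_zero_or_pos m with h4 | h4
    · rw [h4, mul_zero] at hn
      exact absurd hn Z.n_pos.ne'
    · exact h4
  have h4 := Nat.le_of_dvd h3 h2
  omega

end Pool.Agent.Helper94.BR
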